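import Mathlib

set_option autoImplicit false

namespace Pool.Agent.Results.MP_9f3bc5_nt.OddFromEven

/-- Two distinct primes with an even sum are both different from `2`. -/
theorem ne_two (p q m : ℕ) (hp : p.Prime) (hq : q.Prime) (hpq : p < q) (hm : p + q = m)
    (he : m % 2 = 0) : 3 ≤ p := by
  have h2 := hp.two_le
  rcases Nat.lt_or_ge p 3 with h | h
  · have hp2 : p = 2 := by omega
    subst hp2
    rcases hq.eq_two_or_odd with h | h <;> omega
  · exact h

theorem three_dvd_prime (a : ℕ) (ha : a.Prime) (h : 3 ∣ a) : a = 3 :=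
  ((Nat.prime_dvd_prime_iff_eq Nat.prime_three ha).1 h).symm

theorem odd_case (n : ℕ) (hn : 23 ≤ n) (hodd : n % 2 = 1)
    (H : ∀ m : ℕ, 16 ≤ m → Even m → ∃ p q : ℕ, p.Prime ∧ q.Prime ∧ p < q ∧ p + q = m) :
    ∃ p q r : ℕ, p.Prime ∧ q.Prime ∧ r.Prime ∧ p < q ∧ q < r ∧ p + q + r = n := by
  have p5 : Nat.Prime 5 := by norm_num
  have p7 : Nat.Prime 7 := by norm_num
  have even_of : ∀ m : ℕ, m % 2 = 0 → Even m := fun m h => Nat.even_iff.2 h
  obtain ⟨p, q, hp, hq, hpq, hs⟩ := H (n - 3) (by omega) (even_of _ (by omega))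
  have hp3 := ne_two p q _ hp hq hpq hs (by omega)
  rcases Nat.lt_or_ge 3 p with h3 | h3
  · exact ⟨3, p, q, Nat.prime_three, hp, hq, h3, hpq, by omega⟩
  have hpe : p = 3 := by omega
  subst hpe
  obtain ⟨p', q', hp', hq', hpq', hs'⟩ := H (n - 5) (by omega) (even_of _ (by omega))
  have hp3' := ne_two p' q' _ hp' hq' hpq' hs' (by omega)
  rcases lt_trichotomy p' 5 with h5 | h5 | h5
  · rcases lt_trichotomy q' 5 with g5 | g5 | g5
    · omega
    · omega
    · exact ⟨p', 5, q', hp', p5, hq', h5, g5, by omega⟩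
  · subst h5
    obtain ⟨p'', q'', hp'', hq'', hpq'', hs''⟩ := H (n - 7) (by omega) (even_of _ (by omega))
    have hp3'' := ne_two p'' q'' _ hp'' hq'' hpq'' hs'' (by omega)
    rcases lt_trichotomy p'' 7 with h7 | h7 | h7
    · rcases lt_trichotomy q'' 7 with g7 | g7 | g7
      · omega
      · omega
      · exact ⟨p'', 7, q'', hp'', p7, hq'', h7, g7, by omega⟩
    · subst h7
      exfalso
      -- `q = n - 6`, `q' = n - 10`, `q'' = n - 14` are primes, one is a multiple of three
      have hcases : 3 ∣ q ∨ 3 ∣ q' ∨ 3 ∣ q'' := by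
        have h0 : n % 3 = 0 ∨ n % 3 = 1 ∨ n % 3 = 2 := by omega
        rcases h0 with h0 | h0 | h0
        · left; omega
        · right; left; omega
        · right; right; omega
      rcases hcases with h | h | h
      · have := three_dvd_prime q hq h; omega
      · have := three_dvd_prime q' hq' h; omega
      · have := three_dvd_prime q'' hq'' h; omega
    · exact ⟨7, p'', q'', p7, hp'', hq'', h7, hpq'', by omega⟩
  · exact ⟨5, p', q', p5, hp', hq', h5, hpq', by omega⟩

theorem result :
    (∀ n : ℕ, 17 < n →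
      ∃ p q r : ℕ, p.Prime ∧ q.Prime ∧ r.Prime ∧ p < q ∧ q < r ∧ p + q + r = n) ↔
    (∀ m : ℕ, 16 ≤ m → Even m → ∃ p q : ℕ, p.Prime ∧ q.Prime ∧ p < q ∧ p + q = m) := by
  constructor
  · intro H m hm he
    obtain ⟨p, q, r, hp, hq, hr, hpq, hqr, hs⟩ := H (m + 2) (by omega)
    have he' := Nat.even_iff.1 he
    have hp2 : p = 2 := by
      rcases hp.eq_two_or_odd with h | h
      · exact h
      · rcases hq.eq_two_or_odd with h' | h'
        · have := hp.two_le; omega
        · rcases hr.eq_two_or_odd with h'' | h''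
          · have := hp.two_le; omega
          · omega
    exact ⟨q, r, hq, hr, hqr, by omega⟩
  · intro H n hn
    rcases Nat.mod_two_eq_zero_or_one n with he | ho
    · obtain ⟨p, q, hp, hq, hpq, hs⟩ := H (n - 2) (by omega) (Nat.even_iff.2 (by omega))
      have hp3 := ne_two p q _ hp hq hpq hs (by omega)
      exact ⟨2, p, q, Nat.prime_two, hp, hq, by omega, hpq, by omega⟩
    · rcases Nat.lt_or_ge n 23 with h | h
      · have : n = 19 ∨ n = 21 := by omega
        rcases this with rfl | rfl
        · exact ⟨3, 5, 11, by norm_num, by norm_num, by norm_num, by norm_num, by norm_num, rfl⟩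
        · exact ⟨3, 5, 13, by norm_num, by norm_num, by norm_num, by norm_num, by norm_num, rfl⟩
      · exact odd_case n h ho H

end Pool.Agent.Results.MP_9f3bc5_nt.OddFromEven
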